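import Pool.Agent.TH300.FC.Base

set_option autoImplicit false

/-!
# Faithful circuit covers when every edge lies on a circuit of edges at least as heavy

Graphs are finite, with loops and parallel edges allowed: `MGraph V E` is a graph with vertex set
`V` and edge set `E`, `G.deg D v` is the degree of `v` in the subgraph with edge set `D` (loops
count twice), and `G.IsCircuit C` says that `C` is the edge set of a connected 2-regular subgraph.
The three are defined in `Pool.Agent.H126R2.CDC.Defs`.

Idea of the proof.  For every `k ≥ 1` the edges of weight at least `2 k` form a bridgeless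
subgraph, so by the circuit double cover theorem it has a circuit double cover.  The sum of these
covers over `k` covers `e` exactly `2 ⌊w e / 2⌋` times; the edges of odd weight form an even
subgraph, which is an edge-disjoint union of circuits.
-/

namespace Pool.Agent.Results.MP_54818a_co.LevelCircuits

open Finset
open Pool.Agent.H126R2.CDC

/-- Let `G` be a finite graph and `w : E(G) → ℕ` a weight such that the edges of odd weight form
an even subgraph (`w` is eulerian), and every edge `e` of weight at least `2` lies on a circuit
all of whose edges weigh at least `2 * ⌊w e / 2⌋` (for an even weight: at least `w e`). Then some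
finite family of circuits of `G`, repetitions allowed, covers every edge `e` exactly `w e` times.
-/
theorem result {V E : Type} [Fintype V] [DecidableEq V] [Fintype E] [DecidableEq E]
    (G : MGraph V E) (w : E → ℕ)
    (hodd : ∀ v, Even (G.deg (univ.filter fun e => Odd (w e)) v))
    (hcirc : ∀ e, 2 ≤ w e → ∃ C, G.IsCircuit C ∧ e ∈ C ∧ ∀ f ∈ C, 2 * (w e / 2) ≤ w f) :
    ∃ F : Multiset (Finset E), (∀ C ∈ F, G.IsCircuit C) ∧
      ∀ e, F.countP (fun C => e ∈ C) = w e := by
  apply Pool.Agent.TH300.FC.finish G w hodd
  obtain ⟨F, hF1, hF2⟩ := Pool.Agent.TH300.FC.layers G w hcirc (∑ e, w e)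
  refine ⟨F, hF1, fun e => ?_⟩
  have h1 : w e ≤ ∑ e, w e := Finset.single_le_sum (fun _ _ => Nat.zero_le _) (mem_univ e)
  rw [hF2 e]
  omega

end Pool.Agent.Results.MP_54818a_co.LevelCircuits
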